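import Pool.Agent.H365.TF.Stm

/-!
# Project TF, lemma BS: the group `BS(1,2)` (helper662)
-/

set_option autoImplicit false

namespace Pool.Agent.H365.TF

noncomputable section

/-! ### The group `BS(1,2)` -/

namespace BSP

/-- `ℤ[1/2]` -/
abbrev R : Type := Localization.Away (2 : ℤ)

/-- the unit `2` -/
def t : Rˣ := (IsLocalization.Away.algebraMap_isUnit (S := R) (2 : ℤ)).unit

lemma t_val : (t : R) = 2 := by
  unfold t
  rw [IsUnit.unit_spec]
  simp

/-- the group of the maps `x ↦ 2^n x + v` -/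
@[ext] structure H where
  n : ℤ
  v : R

instance : Mul H := ⟨fun x y => ⟨x.n + y.n, ((t ^ x.n : Rˣ) : R) * y.v + x.v⟩⟩
instance : One H := ⟨⟨0, 0⟩⟩
instance : Inv H := ⟨fun x => ⟨-x.n, -(((t ^ (-x.n) : Rˣ) : R) * x.v)⟩⟩

lemma mul_n (x y : H) : (x * y).n = x.n + y.n := rfl
lemma mul_v (x y : H) : (x * y).v = ((t ^ x.n : Rˣ) : R) * y.v + x.v := rfl
lemma one_n : (1 : H).n = 0 := rfl
lemma one_v : (1 : H).v = 0 := rfl
lemma inv_n (x : H) : (x⁻¹).n = -x.n := rfl
lemma inv_v (x : H) : (x⁻¹).v = -(((t ^ (-x.n) : Rˣ) : R) * x.v) := rfl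

instance : Group H :=
  Group.ofLeftAxioms
    (by
      intro x y z
      refine H.ext ?_ ?_
      · simp only [mul_n, add_assoc]
      · simp only [mul_n, mul_v, zpow_add, Units.val_mul]
        ring)
    (by
      intro x
      refine H.ext ?_ ?_
      · simp only [mul_n, one_n, zero_add]
      · simp only [mul_v, one_n, one_v, zpow_zero, Units.val_one, one_mul, add_zero])
    (by
      intro x
      refine H.ext ?_ ?_
      · simp only [mul_n, inv_n, one_n, neg_add_cancel]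
      · simp only [mul_v, inv_n, inv_v, one_v, add_neg_cancel])

def a : H := ⟨1, 0⟩
def f : H := ⟨0, 1⟩

lemma a_zpow (z : ℤ) : a ^ z = ⟨z, 0⟩ := by
  have hh : ∀ x y : ℤ, (⟨x, 0⟩ : H) * ⟨y, 0⟩ = ⟨x + y, 0⟩ := by
    intro x y
    refine H.ext rfl ?_
    simp [mul_v]
  induction z using Int.induction_on with
  | zero => rfl
  | succ n ih => rw [zpow_add_one, ih]; exact hh _ _
  | pred n ih =>
    rw [zpow_sub_one, ih]
    have : a⁻¹ = ⟨-1, 0⟩ := H.ext rfl (by simp [inv_v, a])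
    rw [this]
    exact hh _ _

lemma f_zpow (z : ℤ) : f ^ z = ⟨0, (z : R)⟩ := by
  have hh : ∀ x y : R, (⟨0, x⟩ : H) * ⟨0, y⟩ = ⟨0, x + y⟩ := by
    intro x y
    refine H.ext (by simp [mul_n]) ?_
    simp [mul_v, add_comm]
  induction z using Int.induction_on with
  | zero => exact H.ext rfl (by simp [one_v])
  | succ n ih =>
    rw [zpow_add_one, ih]
    refine (hh _ _).trans (H.ext rfl ?_)
    push_cast
    rfl
  | pred n ih =>
    rw [zpow_sub_one, ih]
    have : f⁻¹ = ⟨0, -1⟩ := H.ext (by simp [inv_n, f]) (by simp [inv_v, f])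
    rw [this]
    refine (hh _ _).trans (H.ext rfl ?_)
    push_cast
    ring

lemma f_pow (k : ℕ) : f ^ k = ⟨0, (k : R)⟩ := by
  have := f_zpow k
  rw [zpow_natCast] at this
  rw [this]
  simp

/-- the normal form -/
lemma nf (h : H) (k : ℕ) (m : ℤ) (hv : h.v * 2 ^ k = m) :
    h = a ^ (-(k : ℤ)) * f ^ m * a ^ ((k : ℤ) + h.n) := by
  rw [a_zpow, f_zpow, a_zpow]
  refine H.ext ?_ ?_
  · simp [mul_n]
  · simp only [mul_n, mul_v, MulZeroClass.mul_zero, zero_add, add_zero]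
    rw [← hv, ← t_val, zpow_neg, zpow_natCast, mul_comm, mul_assoc, ← Units.val_pow_eq_pow_val,
      Units.mul_inv, mul_one]

lemma surj (v : R) : ∃ (k : ℕ) (m : ℤ), v * 2 ^ k = m := by
  obtain ⟨k, m, h⟩ := IsLocalization.Away.surj (2 : ℤ) v
  refine ⟨k, m, ?_⟩
  simpa using h

/-! ### the monoid -/

/-- the homomorphism to the rational numbers -/
def q : R →+* ℚ := IsLocalization.Away.lift (2 : ℤ) (g := Int.castRingHom ℚ)
  (isUnit_iff_ne_zero.2 (by simp))

lemma q_t (n : ℤ) : 0 < q ((t ^ n : Rˣ) : R) := by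
  have h1 : q ((t ^ n : Rˣ) : R) = (((Units.map (q : R →* ℚ) t) ^ n : ℚˣ) : ℚ) := by
    rw [← map_zpow]
    rfl
  have h2 : ((Units.map (q : R →* ℚ) t : ℚˣ) : ℚ) = 2 := by
    show q (t : R) = 2
    rw [t_val, map_ofNat]
  rw [h1, Units.val_zpow_eq_zpow_val, h2]
  positivity

/-- the nonnegative elements -/
def pos : Submonoid H where
  carrier := {h | 0 ≤ q h.v}
  mul_mem' := by
    intro x y hx hy
    simp only [Set.mem_ofPred_eq] at *
    rw [mul_v, map_add, map_mul]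
    exact add_nonneg (mul_nonneg (q_t _).le hy) hx
  one_mem' := by
    simp [one_v]

lemma f_inv : f⁻¹ ∉ Submonoid.closure ({a, a⁻¹, f} : Set H) := by
  intro h
  have h1 : Submonoid.closure ({a, a⁻¹, f} : Set H) ≤ pos := by
    rw [Submonoid.closure_le]
    rintro x (rfl | rfl | rfl)
    · show 0 ≤ q a.v
      simp [a]
    · show 0 ≤ q (a⁻¹).v
      simp [inv_v, a]
    · show 0 ≤ q f.v
      simp [f]
  have h2 : 0 ≤ q (f⁻¹).v := h1 h
  rw [inv_v] at h2
  simp [f] at h2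
  linarith

lemma a_mem (z : ℤ) : a ^ z ∈ Submonoid.closure ({a, a⁻¹, f} : Set H) := by
  have h1 : a ∈ Submonoid.closure ({a, a⁻¹, f} : Set H) := Submonoid.subset_closure (by simp)
  have h2 : a⁻¹ ∈ Submonoid.closure ({a, a⁻¹, f} : Set H) := Submonoid.subset_closure (by simp)
  rcases Int.eq_nat_or_neg z with ⟨n, rfl | rfl⟩
  · rw [zpow_natCast]
    exact pow_mem h1 n
  · rw [zpow_neg, zpow_natCast, ← inv_pow]
    exact pow_mem h2 n

lemma f_mem (k : ℕ) : f ^ k ∈ Submonoid.closure ({a, a⁻¹, f} : Set H) :=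
  pow_mem (Submonoid.subset_closure (by simp)) k

lemma large (h : H) : ∃ k : ℕ, h * f ^ k ∈ Submonoid.closure ({a, a⁻¹, f} : Set H) := by
  obtain ⟨k, m, hv⟩ := surj h.v
  set N := h.n.natAbs with hN
  obtain ⟨A, hA⟩ : ∃ A : ℕ, A = m.natAbs := ⟨_, rfl⟩
  refine ⟨A * 2 ^ N, ?_⟩
  obtain ⟨e, he⟩ : ∃ e : ℕ, (e : ℤ) = N + k + h.n := ⟨(N + k + h.n).toNat, by omega⟩
  have hv2 : (h * f ^ (A * 2 ^ N)).v * 2 ^ (N + k) =
      ((2 ^ N * m + A * 2 ^ N * 2 ^ e : ℤ) : R) := by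
    rw [mul_v, f_pow, add_mul]
    have e1 : ((t ^ h.n : Rˣ) : R) * 2 ^ (N + k) = 2 ^ e := by
      rw [← t_val, ← Units.val_pow_eq_pow_val, ← Units.val_pow_eq_pow_val, ← Units.val_mul,
        ← zpow_natCast, ← zpow_natCast, ← zpow_add]
      congr 2
      push_cast
      rw [he]
      ring
    push_cast
    rw [mul_right_comm, e1, pow_add, ← hv]
    ring
  obtain ⟨M, hM⟩ : ∃ M : ℕ, (M : ℤ) = 2 ^ N * m + A * 2 ^ N * 2 ^ e := by
    have h1 : (0 : ℤ) ≤ 2 ^ N * m + A * 2 ^ N * 2 ^ e := by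
      have h2 : (1 : ℤ) ≤ 2 ^ e := one_le_pow₀ (by norm_num)
      have h3 : -(A : ℤ) ≤ m := by omega
      have h4 : (0 : ℤ) < 2 ^ N := by positivity
      have h5 : (A : ℤ) * 2 ^ N * 1 ≤ (A : ℤ) * 2 ^ N * 2 ^ e :=
        mul_le_mul_of_nonneg_left h2 (by positivity)
      nlinarith
    exact ⟨_, Int.toNat_of_nonneg h1⟩
  rw [nf _ _ _ hv2, ← hM, zpow_natCast]
  exact mul_mem (mul_mem (a_mem _) (f_mem _)) (a_mem _)

/-! ### finite quotients -/

section quot

variable {S : Type} [CommRing S] (φ : R →+* S)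

/-- the action on `S` -/
def act : H →* Equiv.Perm S where
  toFun h := (Units.mulLeft (Units.map (φ : R →* S) (t ^ h.n))).trans (Equiv.addRight (φ h.v))
  map_one' := by
    ext x
    simp [one_n, one_v]
  map_mul' := by
    intro g h
    ext x
    simp only [Equiv.trans_apply, Units.mulLeft_apply, Equiv.coe_addRight, Equiv.Perm.mul_apply,
      mul_n, mul_v, Units.coe_map, MonoidHom.coe_coe, zpow_add, Units.val_mul, map_mul, map_add]
    ring

lemma act_apply (h : H) (x : S) : act φ h x = φ ((t ^ h.n : Rˣ) : R) * x + φ h.v := rfl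

/-- the linear part -/
def lin : H →* Sˣ where
  toFun h := Units.map (φ : R →* S) (t ^ h.n)
  map_one' := by simp [one_n]
  map_mul' := by
    intro g h
    rw [mul_n, zpow_add, map_mul]

lemma lin_val (h : H) : ((lin φ h : Sˣ) : S) = φ ((t ^ h.n : Rˣ) : R) := rfl

lemma lin_eq (h : H) : lin φ h = 1 ↔ (2 : S) ^ h.n.natAbs = 1 := by
  have h1 : lin φ h = (Units.map (φ : R →* S) t) ^ h.n :=
    (show lin φ h = Units.map (φ : R →* S) (t ^ h.n) from rfl).trans (map_zpow _ _ _)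
  have h2 : ((Units.map (φ : R →* S) t : Sˣ) : S) = 2 := by
    show φ (t : R) = 2
    rw [t_val, map_ofNat]
  rw [h1, ← pow_natAbs_eq_one, Units.ext_iff, Units.val_pow_eq_pow_val, h2, Units.val_one]

lemma act_one {h : H} (h1 : act φ h = 1) : (2 : S) ^ h.n.natAbs = 1 ∧ φ h.v = 0 := by
  have e0 : φ h.v = 0 := by
    have := congrArg (fun e : Equiv.Perm S => e 0) h1
    simpa [act_apply] using this
  refine ⟨?_, e0⟩
  rw [← lin_eq φ, Units.ext_iff, lin_val]
  have := congrArg (fun e : Equiv.Perm S => e 1) h1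
  simpa [act_apply, e0] using this

lemma shift_pow {S : Type} [CommRing S] (σ : Equiv.Perm S) (c : S) (h : ∀ z, σ z = z + c)
    (k : ℕ) (z : S) : (σ ^ k) z = z + k * c := by
  induction k generalizing z with
  | zero => simp
  | succ k ih =>
    rw [pow_succ, Equiv.Perm.mul_apply, h, ih]
    push_cast
    ring

end quot

/-- reduction modulo an odd number -/
def phi (m : ℕ) (hm : Nat.Coprime 2 m) : R →+* ZMod m :=
  IsLocalization.Away.lift (2 : ℤ) (g := Int.castRingHom (ZMod m))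
    (by
      have := (ZMod.unitOfCoprime 2 hm).isUnit
      simpa using this)

lemma two_pow_iff (m k : ℕ) : (2 : ZMod m) ^ k = 1 ↔ (m : ℤ) ∣ 2 ^ k - 1 := by
  rw [← ZMod.intCast_zmod_eq_zero_iff_dvd]
  push_cast
  rw [sub_eq_zero]

lemma vres (ℓ : ℕ) [Fact ℓ.Prime] (h2 : Nat.Coprime 2 ℓ) : ∃ N : Subgroup H, VRes ℓ H N := by
  have hp : ℓ.Prime := Fact.out
  have hj : ∀ j, Nat.Coprime 2 (ℓ ^ j) := fun j => Nat.Coprime.pow_right j h2
  have : ∀ j, NeZero (ℓ ^ j) := fun j => ⟨(pow_pos hp.pos j).ne'⟩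
  have : NeZero ℓ := ⟨hp.ne_zero⟩
  refine ⟨(lin (phi ℓ h2)).ker, inferInstance, inferInstance, fun S hS => ?_⟩
  -- the bound for one element
  have hb : ∀ s : H, s ≠ 1 → ∃ j0 : ℕ, ∀ j, j0 ≤ j → s ∉ (act (phi (ℓ ^ j) (hj j))).ker := by
    intro s hs
    obtain ⟨k, m, hv⟩ := surj s.v
    refine ⟨s.n.natAbs + m.natAbs, fun j hjj hker => hs ?_⟩
    obtain ⟨e1, e2⟩ := act_one _ (MonoidHom.mem_ker.1 hker)
    have hlt : ∀ i : ℕ, i ≤ j → i < ℓ ^ j ∧ 2 ^ i ≤ ℓ ^ j := fun i hi =>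
      ⟨lt_of_lt_of_le (Nat.lt_two_pow_self) ((Nat.pow_le_pow_right (by norm_num) hi).trans
        (Nat.pow_le_pow_left hp.two_le j)),
        (Nat.pow_le_pow_right (by norm_num) hi).trans (Nat.pow_le_pow_left hp.two_le j)⟩
    have hn : s.n.natAbs = 0 := by
      by_contra hne
      rw [two_pow_iff] at e1
      have h3 : (1 : ℤ) < 2 ^ s.n.natAbs := one_lt_pow₀ (by norm_num) hne
      have h4 := Int.le_of_dvd (by linarith) e1
      have h5 := (hlt s.n.natAbs (by omega)).2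
      have h6 : (2 : ℤ) ^ s.n.natAbs ≤ ((ℓ ^ j : ℕ) : ℤ) := by exact_mod_cast h5
      linarith
    have hm : m = 0 := by
      by_contra hne
      have h3 : phi (ℓ ^ j) (hj j) ((m : ℤ) : R) = 0 := by
        rw [← hv, map_mul, e2, MulZeroClass.zero_mul]
      rw [map_intCast, ZMod.intCast_zmod_eq_zero_iff_dvd] at h3
      have h4 := Int.natAbs_dvd_natAbs.2 h3
      rw [Int.natAbs_natCast] at h4
      have h5 := Nat.le_of_dvd (by omega) h4
      have h6 := (hlt m.natAbs (by omega)).1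
      omega
    refine H.ext ?_ ?_
    · rw [one_n]; omega
    · rw [one_v]
      rw [hm, Int.cast_zero, ← t_val, ← Units.val_pow_eq_pow_val, Units.mul_left_eq_zero] at hv
      exact hv
  obtain ⟨j0, hj0⟩ : ∃ j0 : ℕ, ∀ s ∈ S, ∀ j, j0 ≤ j → s ∉ (act (phi (ℓ ^ j) (hj j))).ker := by
    classical
    choose! b hb' using hb
    refine ⟨S.sup b, fun s hs j hjj => hb' s (fun h => hS (h ▸ hs)) j ?_⟩
    exact (Finset.le_sup hs).trans hjj
  set j := j0 + 1 with hjdef
  set M := (act (phi (ℓ ^ j) (hj j))).ker with hM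
  have hMN : M ≤ (lin (phi ℓ h2)).ker := by
    intro h hh
    rw [MonoidHom.mem_ker, lin_eq]
    have e1 := (act_one _ (MonoidHom.mem_ker.1 hh)).1
    rw [two_pow_iff] at e1 ⊢
    refine dvd_trans ?_ e1
    push_cast
    exact dvd_pow_self _ (by omega)
  refine ⟨M, inferInstance, inferInstance, hMN, ?_, fun s hs => hj0 s hs j (by omega)⟩
  have hpg : IsPGroup ℓ ((lin (phi ℓ h2)).ker ⧸ M.subgroupOf (lin (phi ℓ h2)).ker) := by
    intro x
    obtain ⟨x, rfl⟩ := QuotientGroup.mk_surjective x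
    refine ⟨j + j, ?_⟩
    rw [← QuotientGroup.mk_pow, QuotientGroup.eq_one_iff, Subgroup.mem_subgroupOf, hM,
      MonoidHom.mem_ker, Subgroup.coe_pow, map_pow]
    have e0 : (act (phi (ℓ ^ j) (hj j)) (x : H)) ^ (ℓ ^ (j + j)) =
        ((act (phi (ℓ ^ j) (hj j)) (x : H)) ^ (ℓ ^ j)) ^ (ℓ ^ j) := by
      rw [← pow_mul, ← pow_add]
    rw [e0]
    have hx := x.2
    rw [MonoidHom.mem_ker, lin_eq, two_pow_iff] at hx
    -- the linear part
    have h5 : (2 : ZMod (ℓ ^ j)) ^ ((x : H) ^ (ℓ ^ j)).n.natAbs = 1 := by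
      have e : ∀ (y : H) (k : ℕ), (y ^ k).n = k * y.n := by
        intro y k
        induction k with
        | zero => simp [one_n]
        | succ k ih => rw [pow_succ, mul_n, ih]; push_cast; ring
      rw [e, Int.natAbs_mul, Int.natAbs_natCast, mul_comm, pow_mul]
      have h6 : ((ℓ : ℕ) : ZMod (ℓ ^ j)) ∣ (2 : ZMod (ℓ ^ j)) ^ (x : H).n.natAbs - 1 := by
        obtain ⟨c, hc⟩ := hx
        refine ⟨(c : ZMod (ℓ ^ j)), ?_⟩
        have := congrArg (Int.cast : ℤ → ZMod (ℓ ^ j)) hc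
        push_cast at this
        exact this
      have h7 := dvd_sub_pow_of_dvd_sub h6 j
      have h8' : ((ℓ : ℕ) : ZMod (ℓ ^ j)) ^ j = 0 := by
        have := ZMod.natCast_self (ℓ ^ j)
        push_cast at this
        exact this
      have h8 : ((ℓ : ℕ) : ZMod (ℓ ^ j)) ^ (j + 1) = 0 := pow_eq_zero_of_le (Nat.le_succ j) h8'
      rw [h8, zero_dvd_iff, one_pow, sub_eq_zero] at h7
      exact h7
    have h9 : (act (phi (ℓ ^ j) (hj j)) (x : H)) ^ (ℓ ^ j) =
        act (phi (ℓ ^ j) (hj j)) ((x : H) ^ (ℓ ^ j)) := (map_pow _ _ _).symm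
    rw [h9]
    set y := (x : H) ^ (ℓ ^ j) with hy
    have h10 : ∀ z : ZMod (ℓ ^ j), act (phi (ℓ ^ j) (hj j)) y z = z + phi (ℓ ^ j) (hj j) y.v := by
      intro z
      rw [act_apply, ← lin_val, (lin_eq _ _).2 h5, Units.val_one, one_mul]
    have h11 := shift_pow (act (phi (ℓ ^ j) (hj j)) y) _ h10
    ext z
    rw [h11, ZMod.natCast_self, MulZeroClass.zero_mul, add_zero]
    rfl
  obtain ⟨k, hk⟩ := (IsPGroup.iff_card (p := ℓ)).1 hpg
  exact ⟨k, hk⟩

end BSP

open BSP in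
/-- **BS.** -/
theorem t_BS : S_BS := by
  refine ⟨BSP.H, inferInstance, a, f, ?_, ?_, f_inv, large, ?_, ?_⟩
  · rw [f_pow]
    have h1 : a⁻¹ = (⟨-1, 0⟩ : BSP.H) := BSP.H.ext rfl (by simp [inv_v, a])
    rw [h1]
    refine BSP.H.ext ?_ ?_
    · simp [mul_n, a, f]
    · simp [mul_v, a, f, t_val]
  · rw [eq_top_iff]
    intro h _
    obtain ⟨k, m, hv⟩ := surj h.v
    have ha : a ∈ Subgroup.closure ({a, f} : Set BSP.H) := Subgroup.subset_closure (by simp)
    have hf : f ∈ Subgroup.closure ({a, f} : Set BSP.H) := Subgroup.subset_closure (by simp)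
    rw [nf h k m hv]
    exact mul_mem (mul_mem (zpow_mem ha _) (zpow_mem hf _)) (zpow_mem ha _)
  · have : Fact (Nat.Prime 5) := ⟨by norm_num⟩
    exact vres 5 (by norm_num)
  · have : Fact (Nat.Prime 7) := ⟨by norm_num⟩
    exact vres 7 (by norm_num)

end

end Pool.Agent.H365.TF
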